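import Mathlib
import Pool.Agent.Lib.MP_f98a08_co.Defs
import Pool.Agent.Lib.MP_f98a08_co.Main

/-! Q1 of MP_f98a08_co, in full: `γ_{n,k,n-1-2k} ≥ γ^S_{n,k}` for all `n ≥ 1` and
`0 ≤ k ≤ (n-1)/2`.  The definitions used are in `Pool/Agent/Lib/MP_f98a08_co/Defs.lean`. -/

open Pool.Agent.Lib.MP_f98a08_co

/-- For every `n ≥ 1`, the two-variable gamma coefficients `γ` and the separable gamma
coefficients `g` exist, and for all such `γ`, `g` and all `k ≤ (n-1)/2` we have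
`g k ≤ γ k (n-1-2k)`. -/
theorem Pool.Agent.Results.MP_f98a08_co.GammaComparison.result (n : ℕ) (hn : 1 ≤ n) :
    (∃ γ, IsTwoSidedGamma n γ) ∧ (∃ g, IsSeparableGamma n g) ∧
    ∀ γ g, IsTwoSidedGamma n γ → IsSeparableGamma n g →
      ∀ k, 2 * k ≤ n - 1 → g k ≤ γ k (n - 1 - 2 * k) :=
  main n hn
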